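import Pool.Agent.Helper59.MB.Goals1

set_option autoImplicit false

open MeasureTheory

namespace Pool.Agent.Helper12.MB

open Pool.Agent.Helper59.MB

theorem t_BLK : S_BLK := by
  classical
  intro Z _ m _ ι κ f hf
  have hmeas : Measurable (fun (w : κ → Z) (i : ι) => w (f i)) := by
    rw [measurable_pi_iff]
    intro i
    exact measurable_pi_apply _
  apply Measure.eq_infinitePi
  intro s t ht
  rw [Measure.map_apply hmeas (MeasurableSet.pi s.countable_toSet fun i _ => ht i)]
  set t' : κ → Set Z := fun k => if h : ∃ i, f i = k then t h.choose else Set.univ with ht'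
  have ht'f : ∀ i, t' (f i) = t i := by
    intro i
    have h : ∃ j, f j = f i := ⟨i, rfl⟩
    simp only [ht', dif_pos h]
    rw [hf h.choose_spec]
  have hset : (fun (w : κ → Z) (i : ι) => w (f i)) ⁻¹' (Set.pi s t) =
      Set.pi (s.image f : Finset κ) t' := by
    ext w
    simp only [Set.mem_preimage, Set.mem_pi, Finset.mem_coe, Finset.mem_image]
    constructor
    · rintro h k ⟨i, hi, rfl⟩
      rw [ht'f]
      exact h i hi
    · intro h i hi
      have := h (f i) ⟨i, hi, rfl⟩
      rwa [ht'f] at this
  rw [hset, Measure.infinitePi_pi]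
  · rw [Finset.prod_image (fun a _ b _ h => hf h)]
    exact Finset.prod_congr rfl fun i _ => by rw [ht'f]
  · intro k hk
    obtain ⟨i, _, rfl⟩ := Finset.mem_image.mp hk
    rw [ht'f]
    exact ht i

end Pool.Agent.Helper12.MB
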