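import Pool.Agent.Helper50.MB.Goals

set_option autoImplicit false

namespace Pool.Agent.Helper12.MB

open Pool.Agent.Helper50.MB

lemma cr_lt {N : ℕ} {z : ℤ} (h1 : -(N : ℤ) ≤ z) (h2 : z < N) : cr z < N := by
  unfold cr
  split_ifs <;> omega

lemma in_of_ne {l h : ℤ} {a : ℤ → ℤ} (hn : NCI l h a) {z : ℤ} (hz : a z ≠ z) : l ≤ z ∧ z < h := by
  by_contra hc
  apply hz
  apply hn.out
  by_contra h2
  apply hc
  constructor <;> omega

theorem goalCUT (hSEP : Pool.Agent.Helper50.MB.SEP) (hENC : Pool.Agent.Helper50.MB.ENC)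
    (hGE : Pool.Agent.Helper50.MB.GE) (hGLH : Pool.Agent.Helper50.MB.GLH) :
    Pool.Agent.Helper50.MB.CUT := by
  classical
  intro N a hN hnc
  have : NeZero N := ⟨by omega⟩
  obtain ⟨enc, hE⟩ := hENC _ _ a hnc
  obtain ⟨hF1, hF2, hcard, hc1, hc2, hdeg, hdist⟩ := hGLH N a enc hnc hE
  have : Fintype (Fc a) := Fintype.ofFinite _
  have : Fintype (Ed N a) := Fintype.ofFinite _
  have hsep := hSEP (Fin N) (Fc a) (Ed N a) (gS N a) (gT N a) (qS N a enc) (qT N a enc)
    (fun x => enc (x.1 : ℤ)) (by rw [Fintype.card_fin]; exact hN) hc1 hc2 (by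
      rw [Fintype.card_fin, ← Nat.card_eq_fintype_card, ← Nat.card_eq_fintype_card]
      exact hcard) (fun i f => hGE N a enc hnc hE i f) hdeg hdist
  obtain ⟨A', hA1, hA2, hA3⟩ := hsep
  rw [Fintype.card_fin] at hA1 hA2 hA3
  set A : Finset ℕ := (Finset.univ.filter (fun x : Fin N => x ∈ A')).map Fin.valEmbedding with hA
  have memA : ∀ i (hi : i < N), i ∈ A ↔ (⟨i, hi⟩ : Fin N) ∈ A' := by
    intro i hi
    rw [hA, Finset.mem_map]
    constructor
    · rintro ⟨x, hx, rfl⟩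
      exact (Finset.mem_filter.1 hx).2
    · intro h
      exact ⟨⟨i, hi⟩, Finset.mem_filter.2 ⟨Finset.mem_univ _, h⟩, rfl⟩
  have hAr : A ⊆ Finset.range N := by
    intro i hi
    rw [hA, Finset.mem_map] at hi
    obtain ⟨x, -, rfl⟩ := hi
    exact Finset.mem_range.2 x.2
  have hAc : A.card = A'.ncard := by
    rw [hA, Finset.card_map, Set.ncard_eq_toFinset_card' A']
    congr 1
    ext x
    simp
  have hsum : A'.ncard + A'ᶜ.ncard = N := by
    rw [Set.ncard_add_ncard_compl]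
    simp
  have hof : ∀ k (hk : k < N), Fin.ofNat N k = ⟨k, hk⟩ := by
    intro k hk
    apply Fin.ext
    show k % N = k
    exact Nat.mod_eq_of_lt hk
  have memA2 : ∀ k, k < N → (Fin.ofNat N k ∈ A' ↔ k ∈ A) := by
    intro k hk
    rw [hof k hk, memA k hk]
  refine ⟨A, hAr, ?_, ?_, ?_⟩
  · rw [hAc]
    exact hA1
  · rw [Finset.card_sdiff_of_subset hAr, Finset.card_range, hAc]
    omega
  · refine le_trans ?_ hA3
    set S : Set (Ed N a) := {e | ¬ (gS N a e ∈ A' ↔ gT N a e ∈ A')} with hS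
    set R : Set ℕ := {i : ℕ | i + 1 < N ∧ ¬ (i ∈ A ↔ i + 1 ∈ A)} with hR
    let h : Ed N a → ℕ ⊕ (ℤ × ℤ) := fun e => match e with
      | Sum.inl i => Sum.inl i.1
      | Sum.inr x => Sum.inr (if cr x.1 ∈ A then (x.1, a x.1) else (a x.1, x.1))
    have hsub1 : (Sum.inl '' R : Set (ℕ ⊕ (ℤ × ℤ))) ⊆ h '' S := by
      rintro _ ⟨i, ⟨hi1, hi2⟩, rfl⟩
      refine ⟨Sum.inl ⟨i, by omega⟩, ?_, rfl⟩
      show ¬ (Fin.ofNat N i ∈ A' ↔ Fin.ofNat N (i + 1) ∈ A')
      rw [memA2 i (by omega), memA2 (i + 1) hi1]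
      exact hi2
    have hsub2 : (Sum.inr '' (cuts a A) : Set (ℕ ⊕ (ℤ × ℤ))) ⊆ h '' S := by
      rintro _ ⟨⟨u, w⟩, ⟨hq, hu, hw⟩, rfl⟩
      simp only at hq hu hw
      have hne : a u ≠ u := by
        intro he
        rw [hq, he] at hw
        exact hw hu
      have hu' := in_of_ne hnc hne
      have hne2 : a w ≠ w := by
        rw [hq, hnc.inv]
        exact hne.symm
      have hw' := in_of_ne hnc hne2
      have hcu := cr_lt hu'.1 hu'.2
      have hcw := cr_lt hw'.1 hw'.2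
      have haw : a w = u := by rw [hq, hnc.inv]
      rcases lt_or_gt_of_ne hne with hlt | hlt
      · -- a u < u
        have hx : w < a w := by rw [haw, hq]; exact hlt
        refine ⟨Sum.inr ⟨w, hx⟩, ?_, ?_⟩
        · show ¬ (Fin.ofNat N (cr w) ∈ A' ↔ Fin.ofNat N (cr (a w)) ∈ A')
          rw [haw, memA2 _ hcw, memA2 _ hcu]
          exact fun h => hw (h.2 hu)
        · show Sum.inr (if cr w ∈ A then (w, a w) else (a w, w)) = Sum.inr (u, w)
          rw [if_neg hw, haw]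
      · have hx : u < a u := hlt
        refine ⟨Sum.inr ⟨u, hx⟩, ?_, ?_⟩
        · show ¬ (Fin.ofNat N (cr u) ∈ A' ↔ Fin.ofNat N (cr (a u)) ∈ A')
          rw [← hq, memA2 _ hcw, memA2 _ hcu]
          exact fun h => hw (h.1 hu)
        · show Sum.inr (if cr u ∈ A then (u, a u) else (a u, u)) = Sum.inr (u, w)
          rw [if_pos hu, hq]
    have hfin : (h '' S).Finite := (Set.toFinite S).image h
    have hd : Disjoint (Sum.inl '' R : Set (ℕ ⊕ (ℤ × ℤ))) (Sum.inr '' (cuts a A)) := by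
      rw [Set.disjoint_left]
      rintro _ ⟨i, -, rfl⟩ ⟨q, -, hq⟩
      exact Sum.inr_ne_inl hq
    calc red N A + (cuts a A).ncard
        = (Sum.inl '' R : Set (ℕ ⊕ (ℤ × ℤ))).ncard +
          (Sum.inr '' (cuts a A) : Set (ℕ ⊕ (ℤ × ℤ))).ncard := by
          rw [Set.ncard_image_of_injective _ Sum.inl_injective,
            Set.ncard_image_of_injective _ Sum.inr_injective]
          rfl
      _ = ((Sum.inl '' R : Set (ℕ ⊕ (ℤ × ℤ))) ∪ Sum.inr '' (cuts a A)).ncard := by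
          rw [Set.ncard_union_eq hd (hfin.subset hsub1) (hfin.subset hsub2)]
      _ ≤ (h '' S).ncard := Set.ncard_le_ncard (Set.union_subset hsub1 hsub2) hfin
      _ ≤ S.ncard := Set.ncard_image_le (Set.toFinite S)

end Pool.Agent.Helper12.MB
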