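import Pool.Agent.Helper59.MB.Goals3

/-!
# Packet MB-ENA (project MB, MP_49a1ce_an): few words can be predicted with few errors
-/

set_option autoImplicit false

noncomputable section

namespace Pool.Agent.Helper12.MB

open Pool.Agent.Helper59.MB Finset

/-- encoding of the letters -/
def cc (v : ℤ) : Fin 3 := if v = -1 then 0 else if v = 0 then 1 else 2

/-- decoding of the letters -/
def dd (k : Fin 3) : ℤ := ((k : ℕ) : ℤ) - 1

lemma dd_cc (v : ℤ) (h : |v| ≤ 1) : dd (cc v) = v := by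
  rw [abs_le] at h
  obtain h | h | h : v = -1 ∨ v = 0 ∨ v = 1 := by omega
  all_goals subst h; simp [dd, cc]

/-- codes: the predictor on patterns, and the letters at the marked places -/
abbrev Cd (r L : ℕ) : Type := ((Fin r → Fin 3) → Fin 3) × (Fin L → Option (Fin 3))

/-- the code `c` describes the word `β` -/
def Rel (r L : ℕ) (c : Cd r L) (β : ℕ → ℤ) : Prop :=
  ∀ i : Fin L, (∃ y, c.2 i = some y ∧ β i = dd y) ∨
    (c.2 i = none ∧ r ≤ (i : ℕ) ∧ β i = dd (c.1 fun j => cc (β ((i : ℕ) - 1 - (j : ℕ)))))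

lemma uniq (r L : ℕ) (c : Cd r L) (β β' : ℕ → ℤ) (h : Rel r L c β) (h' : Rel r L c β') :
    ∀ i : ℕ, i < L → β i = β' i := by
  intro i
  induction i using Nat.strong_induction_on with
  | _ i ih =>
    intro hi
    rcases h ⟨i, hi⟩ with ⟨y, hy, hb⟩ | ⟨hn, hr, hb⟩
    · rcases h' ⟨i, hi⟩ with ⟨y', hy', hb'⟩ | ⟨hn', _, _⟩
      · rw [hy] at hy'
        have h1 : y = y' := Option.some_injective _ hy'
        rw [← h1] at hb'
        exact hb.trans hb'.symm
      · rw [hy] at hn'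
        exact absurd hn' (Option.some_ne_none _)
    · rcases h' ⟨i, hi⟩ with ⟨y', hy', _⟩ | ⟨_, _, hb'⟩
      · rw [hn] at hy'
        exact absurd hy'.symm (Option.some_ne_none _)
      · have h1 : (fun j : Fin r => cc (β (i - 1 - (j : ℕ)))) =
            fun j : Fin r => cc (β' (i - 1 - (j : ℕ))) := by
          funext j
          have hj := j.2
          have hr' : r ≤ i := hr
          rw [ih (i - 1 - (j : ℕ)) (by omega) (by omega)]
        have hb1 : β i = dd (c.1 fun j => cc (β (i - 1 - (j : ℕ)))) := hb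
        have hb2 : β' i = dd (c.1 fun j => cc (β' (i - 1 - (j : ℕ)))) := hb'
        rw [hb1, hb2, h1]

/-- the number of marked places -/
def nm {L : ℕ} (g : Fin L → Option (Fin 3)) : ℕ := (univ.filter fun i => g i ≠ none).card

/-- counting by a weight -/
lemma count (L : ℕ) (x t : ℝ) (hx : 0 < x) (hx1 : x ≤ 1) :
    ((univ.filter fun g : Fin L → Option (Fin 3) => ((nm g : ℕ) : ℝ) ≤ t).card : ℝ) * x ^ t ≤
      (1 + 3 * x) ^ L := by
  classical
  set wt : Option (Fin 3) → ℝ := fun o => if o ≠ none then x else 1 with hwt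
  have h1 : (∑ o : Option (Fin 3), wt o) ^ L = ∑ g : Fin L → Option (Fin 3), ∏ i, wt (g i) :=
    Fintype.sum_pow wt L
  have h2 : ∑ o : Option (Fin 3), wt o = 1 + 3 * x := by
    rw [Fintype.sum_option]
    simp [hwt]
  have h3 : ∀ g : Fin L → Option (Fin 3), ∏ i, wt (g i) = x ^ nm g := by
    intro g
    rw [hwt]
    simp only
    rw [Finset.prod_ite, Finset.prod_const, Finset.prod_const_one, mul_one]
    rfl
  rw [← h2, h1]
  calc ((univ.filter fun g : Fin L → Option (Fin 3) => ((nm g : ℕ) : ℝ) ≤ t).card : ℝ) * x ^ t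
      = ∑ g ∈ univ.filter fun g : Fin L → Option (Fin 3) => ((nm g : ℕ) : ℝ) ≤ t, x ^ t := by
        rw [Finset.sum_const, nsmul_eq_mul]
    _ ≤ ∑ g ∈ univ.filter fun g : Fin L → Option (Fin 3) => ((nm g : ℕ) : ℝ) ≤ t,
          ∏ i, wt (g i) := by
        apply Finset.sum_le_sum
        intro g hg
        rw [Finset.mem_filter] at hg
        rw [h3, ← Real.rpow_natCast]
        exact Real.rpow_le_rpow_of_exponent_ge hx hx1 hg.2
    _ ≤ ∑ g : Fin L → Option (Fin 3), ∏ i, wt (g i) := by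
        apply Finset.sum_le_sum_of_subset_of_nonneg (Finset.filter_subset _ _)
        intro g _ _
        rw [h3]
        positivity

open Classical in
/-- the word with the code `c` -/
def decd (r L : ℕ) (c : Cd r L) : Fin L → ℤ :=
  if h : ∃ β : ℕ → ℤ, Rel r L c β then fun i => h.choose i else 0

lemma decd_eq (r L : ℕ) (c : Cd r L) (β : ℕ → ℤ) (h : Rel r L c β) :
    decd r L c = fun i : Fin L => β i := by
  have h1 : ∃ β : ℕ → ℤ, Rel r L c β := ⟨β, h⟩
  unfold decd
  rw [dif_pos h1]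
  funext i
  exact uniq r L c _ _ h1.choose_spec h i i.2

/-- the code of a word which is predicted with few errors -/
lemma code (r L : ℕ) (e : (Fin r → ℤ) → ℤ) (β : ℕ → ℤ) (hβ : ∀ i, |β i| ≤ 1) :
    ∃ c : Cd r L, Rel r L c β ∧
      nm c.2 ≤ ((range L).filter fun i => r ≤ i ∧ β i ≠ e fun j => β (i - 1 - j)).card + r := by
  classical
  let g : Fin L → Option (Fin 3) := fun i =>
    if r ≤ (i : ℕ) ∧ β i = e (fun j => β ((i : ℕ) - 1 - (j : ℕ))) then none else some (cc (β i))
  refine ⟨(fun p => cc (e fun j => dd (p j)), g), ?_, ?_⟩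
  · intro i
    by_cases hi : r ≤ (i : ℕ) ∧ β i = e (fun j => β ((i : ℕ) - 1 - (j : ℕ)))
    · right
      refine ⟨if_pos hi, hi.1, ?_⟩
      show β i = dd (cc (e fun j => dd (cc (β ((i : ℕ) - 1 - (j : ℕ))))))
      have h1 : (fun j : Fin r => dd (cc (β ((i : ℕ) - 1 - (j : ℕ))))) =
          fun j : Fin r => β ((i : ℕ) - 1 - (j : ℕ)) := by
        funext j
        exact dd_cc _ (hβ _)
      rw [h1, ← hi.2, dd_cc _ (hβ _)]
    · left
      exact ⟨cc (β i), if_neg hi, (dd_cc _ (hβ _)).symm⟩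
  · show (univ.filter fun i : Fin L => g i ≠ none).card ≤ _
    have h1 : ((univ.filter fun i : Fin L => g i ≠ none).map Fin.valEmbedding) ⊆
        ((range L).filter fun i => r ≤ i ∧ β i ≠ e fun j => β (i - 1 - j)) ∪ range r := by
      intro i hi
      rw [Finset.mem_map] at hi
      obtain ⟨i', hi', rfl⟩ := hi
      rw [Finset.mem_filter] at hi'
      have h2 : ¬ (r ≤ (i' : ℕ) ∧ β i' = e (fun j => β ((i' : ℕ) - 1 - (j : ℕ)))) := by
        intro h3
        exact hi'.2 (if_pos h3)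
      rw [Finset.mem_union, Finset.mem_filter, Finset.mem_range, Finset.mem_range]
      by_cases h3 : r ≤ (i' : ℕ)
      · left
        refine ⟨i'.2, h3, fun h4 => h2 ⟨h3, h4⟩⟩
      · right
        exact not_le.mp h3
    have h2 := Finset.card_le_card h1
    rw [Finset.card_map] at h2
    refine h2.trans ((Finset.card_union_le _ _).trans ?_)
    rw [Finset.card_range]

theorem t_ENA : S_ENA := by
  classical
  intro ε hε
  -- choice of `n`, `x = 2 ^ (- n)`
  have hb : 0 < (2 : ℝ) ^ (ε / 4) - 1 := by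
    have := Real.one_lt_rpow (by norm_num : (1 : ℝ) < 2) (by positivity : 0 < ε / 4)
    linarith
  obtain ⟨n, hn⟩ := exists_pow_lt_of_lt_one (show 0 < ((2 : ℝ) ^ (ε / 4) - 1) / 3 by positivity)
    (show (1 / 2 : ℝ) < 1 by norm_num)
  refine ⟨ε / (4 * (n + 1)), by positivity, fun r => ?_⟩
  set θ : ℝ := ε / (4 * (n + 1)) with hθ
  set K : ℝ := (Fintype.card ((Fin r → Fin 3) → Fin 3) : ℝ) * 2 ^ ((n : ℝ) * r) with hK
  have hK0 : 0 < K := by positivity
  -- choice of `L₀`
  have htend : Filter.Tendsto (fun L : ℕ => (2 : ℝ) ^ (ε / 2 * (L : ℝ))) Filter.atTop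
      Filter.atTop := by
    have h1 : (fun L : ℕ => (2 : ℝ) ^ (ε / 2 * (L : ℝ))) =
        fun L : ℕ => ((2 : ℝ) ^ (ε / 2)) ^ L := by
      funext L
      rw [Real.rpow_mul (by norm_num), Real.rpow_natCast]
    rw [h1]
    exact tendsto_pow_atTop_atTop_of_one_lt (Real.one_lt_rpow (by norm_num) (by positivity))
  obtain ⟨L₀, hL₀⟩ := Filter.eventually_atTop.mp (htend.eventually_ge_atTop K)
  refine ⟨L₀, fun L hL => ?_⟩
  set G : Finset (Fin L → Option (Fin 3)) :=
    univ.filter fun g : Fin L → Option (Fin 3) => ((nm g : ℕ) : ℝ) ≤ θ * L + r with hG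
  refine ⟨((univ : Finset ((Fin r → Fin 3) → Fin 3)) ×ˢ G).image (decd r L), ?_, ?_⟩
  · have h1 : ((((univ : Finset ((Fin r → Fin 3) → Fin 3)) ×ˢ G).image (decd r L)).card : ℝ) ≤
        (Fintype.card ((Fin r → Fin 3) → Fin 3) : ℝ) * G.card := by
      have h2 := Finset.card_image_le (s := (univ : Finset ((Fin r → Fin 3) → Fin 3)) ×ˢ G)
        (f := decd r L)
      rw [Finset.card_product, Finset.card_univ] at h2
      exact_mod_cast h2
    have h2 := count L ((1 / 2 : ℝ) ^ n) (θ * L + r) (by positivity)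
      (pow_le_one₀ (by norm_num) (by norm_num))
    -- the two factors
    have h3 : ((1 / 2 : ℝ) ^ n) ^ (θ * L + r) = 2 ^ (-((n : ℝ) * (θ * L + r))) := by
      rw [← Real.rpow_natCast, ← Real.rpow_mul (by norm_num), one_div,
        Real.inv_rpow (by norm_num), ← Real.rpow_neg (by norm_num)]
    have h4 : (1 + 3 * (1 / 2 : ℝ) ^ n) ^ L ≤ 2 ^ (ε / 4 * (L : ℝ)) := by
      rw [Real.rpow_mul (by norm_num), Real.rpow_natCast]
      apply pow_le_pow_left₀ (by positivity)
      linarith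
    have h5 : (G.card : ℝ) ≤ 2 ^ (ε / 4 * (L : ℝ)) * 2 ^ ((n : ℝ) * (θ * L + r)) := by
      rw [h3] at h2
      have h6 : (G.card : ℝ) * 2 ^ (-((n : ℝ) * (θ * L + r))) ≤ 2 ^ (ε / 4 * (L : ℝ)) :=
        h2.trans h4
      rw [Real.rpow_neg (by norm_num), ← div_eq_mul_inv, div_le_iff₀ (by positivity)] at h6
      exact h6
    have h6 : (2 : ℝ) ^ ((n : ℝ) * (θ * L + r)) ≤ 2 ^ (ε / 4 * (L : ℝ)) * 2 ^ ((n : ℝ) * r) := by
      rw [← Real.rpow_add (by norm_num)]
      apply Real.rpow_le_rpow_of_exponent_le (by norm_num)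
      have h7 : (n : ℝ) * θ ≤ ε / 4 := by
        rw [hθ, ← mul_div_assoc, div_le_div_iff₀ (by positivity) (by norm_num)]
        nlinarith
      have h8 : (n : ℝ) * θ * L ≤ ε / 4 * L := mul_le_mul_of_nonneg_right h7 (by positivity)
      linarith
    calc ((((univ : Finset ((Fin r → Fin 3) → Fin 3)) ×ˢ G).image (decd r L)).card : ℝ)
        ≤ (Fintype.card ((Fin r → Fin 3) → Fin 3) : ℝ) * G.card := h1
      _ ≤ (Fintype.card ((Fin r → Fin 3) → Fin 3) : ℝ) *
          (2 ^ (ε / 4 * (L : ℝ)) * (2 ^ (ε / 4 * (L : ℝ)) * 2 ^ ((n : ℝ) * r))) := by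
          apply mul_le_mul_of_nonneg_left _ (by positivity)
          exact h5.trans (mul_le_mul_of_nonneg_left h6 (by positivity))
      _ = K * 2 ^ (ε / 2 * (L : ℝ)) := by
          have h7 : (2 : ℝ) ^ (ε / 2 * (L : ℝ)) = 2 ^ (ε / 4 * (L : ℝ)) * 2 ^ (ε / 4 * (L : ℝ)) := by
            rw [← Real.rpow_add (by norm_num)]
            ring_nf
          rw [h7, hK]
          ring
      _ ≤ 2 ^ (ε / 2 * (L : ℝ)) * 2 ^ (ε / 2 * (L : ℝ)) :=
          mul_le_mul_of_nonneg_right (hL₀ L hL) (by positivity)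
      _ = 2 ^ (ε * L) := by
          rw [← Real.rpow_add (by norm_num)]
          ring_nf
  · intro e β hβ herr
    obtain ⟨c, hc, hcn⟩ := code r L e β hβ
    rw [Finset.mem_image]
    refine ⟨c, ?_, decd_eq r L c β hc⟩
    rw [Finset.mem_product]
    refine ⟨Finset.mem_univ _, ?_⟩
    rw [hG, Finset.mem_filter]
    refine ⟨Finset.mem_univ _, ?_⟩
    have h1 : ((nm c.2 : ℕ) : ℝ) ≤
        (((range L).filter fun i => r ≤ i ∧ β i ≠ e fun j => β (i - 1 - j)).card : ℝ) + r := by
      exact_mod_cast hcn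
    linarith

end Pool.Agent.Helper12.MB
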