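import Pool.Agent.Helper59.MB.Goals4
import Pool.Agent.Helper44.MB.ERG

/-!
# Packet MB-WIN (project MB, MP_49a1ce_an): in a Bernoulli system few weight words are useless
-/

set_option autoImplicit false

noncomputable section

open MeasureTheory Filter Topology Finset

namespace Pool.Agent.Helper12.MB

open Pool.Agent.Helper59.MB

lemma sh_mp (m : Measure A) [IsProbabilityMeasure m] (k : ℕ) :
    MeasurePreserving ((shiftZ A)^[k]) (Be m) (Be m) := by
  rw [Pool.Agent.Helper44.MB.shiftZ_iterate]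
  exact Pool.Agent.Helper44.MB.tr_mp m k

/-- the conjugation, almost everywhere -/
lemma conj_ae (Y : Type) [MeasurableSpace Y] (T : Y → Y) (ν : Measure Y) (m : Measure A)
    [IsProbabilityMeasure m] (hT : MeasurePreserving T ν ν) (φ : Y → ℤ → A) (ψ : (ℤ → A) → Y)
    (hψ : MeasurePreserving ψ (Be m) ν) (h3 : ∀ᵐ x ∂ν, φ (T x) = shiftZ A (φ x))
    (h4 : ∀ᵐ x ∂ν, ψ (φ x) = x) (h5 : ∀ᵐ w ∂(Be m), φ (ψ w) = w) (i : ℕ) :
    ∀ᵐ w ∂(Be m), ψ ((shiftZ A)^[i] w) = T^[i] (ψ w) := by
  have h0 : ∀ᵐ w ∂(Be m), ψ (shiftZ A w) = T (ψ w) := by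
    have a1 := hψ.quasiMeasurePreserving.ae h3
    have a3 := (hT.comp hψ).quasiMeasurePreserving.ae h4
    filter_upwards [a1, h5, a3] with w b1 b2 b3
    have b4 : ψ (φ (T (ψ w))) = T (ψ w) := b3
    rw [b1, b2] at b4
    exact b4
  induction i with
  | zero => exact Eventually.of_forall fun w => rfl
  | succ i ih =>
    have a1 := (sh_mp m i).quasiMeasurePreserving.ae h0
    filter_upwards [a1, ih] with w b1 b2
    rw [Function.iterate_succ_apply', Function.iterate_succ_apply', ← b2]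
    exact b1

theorem t_WIN (hLDV : S_LDV) (hAPH : S_APH) : S_WIN := by
  classical
  intro Y _ _ _ T ν m _ f b hν hT hI hf hb h0 c η hc hη
  obtain ⟨φ, ψ, hφ, hψ, h3, h4, h5⟩ := hI
  have hae : ∀ᵐ w ∂(Be m), ∀ i : ℕ, ψ ((shiftZ A)^[i] w) = T^[i] (ψ w) :=
    ae_all_iff.mpr (conj_ae Y T ν m hT φ ψ hψ h3 h4 h5)
  set F : (ℤ → A) → ℝ := fun w => f (ψ w) with hF
  have hFm : Measurable F := hf.comp hψ.measurable
  have hFb : ∀ w, |F w| ≤ b := fun w => hb _
  have hF0 : ∫ w, F w ∂(Be m) = 0 := by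
    rw [← h0, ← hψ.map_eq, integral_map hψ.measurable.aemeasurable hf.aestronglyMeasurable]
  have hb0 : 0 ≤ b := (abs_nonneg _).trans (hFb fun _ _ => false)
  obtain ⟨M, h, hhm, hhb, hhl, hh0, hhd⟩ := hAPH m F b (c * η / 4) hFm (by positivity) hFb hF0
  obtain ⟨K, a, ha, hK⟩ := hLDV m M h (2 * b + 1) (c / 2) hhm (by positivity) (by positivity)
    (fun w => (hhb w).trans (by linarith)) hhl hh0
  have hlog : 0 < Real.log 2 := Real.log_pos (by norm_num)
  have htend : Tendsto (fun L : ℕ => |K| * Real.exp (-(a / 2 * (L : ℝ)))) atTop (𝓝 0) := by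
    have h6 : Tendsto (fun L : ℕ => a / 2 * (L : ℝ)) atTop atTop :=
      tendsto_natCast_atTop_atTop.const_mul_atTop (by positivity)
    have h7 := (Real.tendsto_exp_neg_atTop_nhds_zero.comp h6).const_mul |K|
    rw [mul_zero] at h7
    exact h7
  obtain ⟨L₁, hL₁⟩ := eventually_atTop.mp (htend.eventually_le_const
    (show (0 : ℝ) < η / 2 by positivity))
  refine ⟨a / (2 * Real.log 2), by positivity, max L₁ 1, fun L hL U hU hU1 => ?_⟩
  have hLL : L₁ ≤ L := (le_max_left _ _).trans hL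
  have hL1 : 1 ≤ L := (le_max_right _ _).trans hL
  have hL1' : (1 : ℝ) ≤ L := by exact_mod_cast hL1
  -- the extension of the words
  set e : (Fin L → ℤ) → ℕ → ℝ := fun v n => if h : n < L then ((v ⟨n, h⟩ : ℤ) : ℝ) else 0 with he
  have he1 : ∀ v ∈ U, ∀ n, |e v n| ≤ 1 := by
    intro v hv n
    by_cases hn : n < L
    · rw [he]
      simp only [dif_pos hn]
      have := hU1 v hv ⟨n, hn⟩
      exact_mod_cast this
    · rw [he]
      simp only [dif_neg hn, abs_zero]
      exact zero_le_one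
  have he2 : ∀ (v : Fin L → ℤ) (g : ℕ → ℝ), ∑ n ∈ range L, g n * e v n =
      ∑ i : Fin L, g i * v i := by
    intro v g
    rw [Finset.sum_range]
    apply Finset.sum_congr rfl
    intro i _
    rw [he]
    simp only [dif_pos i.2, Fin.eta]
  -- the functions
  set G : (ℤ → A) → ℝ := fun w => ∑ n ∈ range L, |F ((shiftZ A)^[n] w) - h ((shiftZ A)^[n] w)|
    with hG
  have hFh : Measurable fun w => |F w - h w| := (hFm.sub hhm).abs
  have hint : ∀ n : ℕ, Integrable (fun w => |F ((shiftZ A)^[n] w) - h ((shiftZ A)^[n] w)|)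
      (Be m) := by
    intro n
    refine Integrable.of_bound (hFh.comp (sh_mp m n).measurable).aestronglyMeasurable (3 * b)
      (Eventually.of_forall fun w => ?_)
    rw [Real.norm_eq_abs, abs_abs]
    refine (abs_sub _ _).trans ?_
    have h8 := hFb ((shiftZ A)^[n] w)
    have h9 := hhb ((shiftZ A)^[n] w)
    linarith
  have hintG : Integrable G (Be m) := integrable_finsetSum _ fun n _ => hint n
  have hG1 : ∫ w, G w ∂(Be m) ≤ L * (c * η / 4) := by
    rw [hG, integral_finsetSum _ fun n _ => hint n]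
    have h8 : ∀ n ∈ range L, ∫ w, |F ((shiftZ A)^[n] w) - h ((shiftZ A)^[n] w)| ∂(Be m) ≤
        c * η / 4 := by
      intro n _
      have h9 : ∫ w, |F ((shiftZ A)^[n] w) - h ((shiftZ A)^[n] w)| ∂(Be m) =
          ∫ w, |F w - h w| ∂(Be m) := by
        conv_rhs => rw [← (sh_mp m n).map_eq]
        rw [integral_map (sh_mp m n).measurable.aemeasurable hFh.aestronglyMeasurable]
      rw [h9]
      exact hhd
    refine (Finset.sum_le_card_nsmul _ _ _ h8).trans ?_
    rw [Finset.card_range, nsmul_eq_mul]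
  -- the bad sets
  set E1 : Set (ℤ → A) := {w | c * L / 2 ≤ G w} with hE1
  set E2 : (Fin L → ℤ) → Set (ℤ → A) :=
    fun v => {w | c / 2 * L ≤ |∑ n ∈ range L, h ((shiftZ A)^[n] w) * e v n|} with hE2
  have hm1 : (Be m).real E1 ≤ η / 2 := by
    have h8 := mul_meas_ge_le_integral_of_nonneg (μ := Be m) (f := G)
      (Eventually.of_forall fun w => Finset.sum_nonneg fun n _ => abs_nonneg _) hintG (c * L / 2)
    have h9 : c * L / 2 * (Be m).real E1 ≤ L * (c * η / 4) := h8.trans hG1
    have h10 : 0 < c * L / 2 := by positivity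
    have h11 : L * (c * η / 4) = c * L / 2 * (η / 2) := by ring
    rw [h11] at h9
    exact le_of_mul_le_mul_left h9 h10
  have hm2 : (Be m).real (⋃ v ∈ U, E2 v) ≤ η / 2 := by
    refine (measureReal_biUnion_finset_le U E2).trans ?_
    have h8 : ∀ v ∈ U, (Be m).real (E2 v) ≤ |K| * Real.exp (-(a * L)) := by
      intro v hv
      refine (hK L (e v) (he1 v hv)).trans ?_
      exact mul_le_mul_of_nonneg_right (le_abs_self K) (Real.exp_pos _).le
    refine (Finset.sum_le_card_nsmul _ _ _ h8).trans ?_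
    rw [nsmul_eq_mul]
    have h9 : (2 : ℝ) ^ (a / (2 * Real.log 2) * (L : ℝ)) = Real.exp (a / 2 * L) := by
      rw [Real.rpow_def_of_pos (by norm_num)]
      congr 1
      field_simp
    rw [h9] at hU
    calc (U.card : ℝ) * (|K| * Real.exp (-(a * L)))
        ≤ Real.exp (a / 2 * L) * (|K| * Real.exp (-(a * L))) :=
          mul_le_mul_of_nonneg_right hU (by positivity)
      _ = |K| * Real.exp (-(a / 2 * L)) := by
          have h10 : -(a / 2 * (L : ℝ)) = a / 2 * L + -(a * L) := by ring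
          rw [h10, Real.exp_add]
          ring
      _ ≤ η / 2 := hL₁ L hLL
  -- the transfer
  set Bd : Set Y := {y | ∃ v ∈ U, c * L ≤ |∑ i : Fin L, f (T^[(i : ℕ)] y) * v i|} with hBd
  have hBdm : MeasurableSet Bd := by
    have h8 : Bd = ⋃ v ∈ U, {y | c * L ≤ |∑ i : Fin L, f (T^[(i : ℕ)] y) * v i|} := by
      ext y
      simp [hBd]
    rw [h8]
    apply Finset.measurableSet_biUnion
    intro v _
    apply measurableSet_le measurable_const
    apply Measurable.abs
    apply Finset.measurable_sum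
    intro i _
    exact ((hf.comp (hT.iterate (i : ℕ)).measurable).mul_const _)
  have h8 : ν.real Bd = (Be m).real (ψ ⁻¹' Bd) := by
    rw [measureReal_def, measureReal_def, hψ.measure_preimage hBdm.nullMeasurableSet]
  have h9 : ψ ⁻¹' Bd ≤ᵐ[Be m] (E1 ∪ ⋃ v ∈ U, E2 v : Set (ℤ → A)) := by
    filter_upwards [hae] with w hw hwB
    obtain ⟨v, hv, hcv⟩ := hwB
    by_cases hwE : w ∈ E1
    · exact Or.inl hwE
    · right
      have hwE' : G w < c * L / 2 := not_le.mp hwE
      have h10 : ∑ i : Fin L, f (T^[(i : ℕ)] (ψ w)) * v i =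
          ∑ n ∈ range L, F ((shiftZ A)^[n] w) * e v n := by
        rw [he2 v fun n => F ((shiftZ A)^[n] w)]
        apply Finset.sum_congr rfl
        intro i _
        rw [hF]
        simp only
        rw [hw i]
      rw [h10] at hcv
      have h11 : |∑ n ∈ range L, F ((shiftZ A)^[n] w) * e v n -
          ∑ n ∈ range L, h ((shiftZ A)^[n] w) * e v n| ≤ G w := by
        rw [← Finset.sum_sub_distrib]
        refine (Finset.abs_sum_le_sum_abs _ _).trans ?_
        apply Finset.sum_le_sum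
        intro n _
        rw [← sub_mul, abs_mul]
        have h12 := mul_le_mul_of_nonneg_left (he1 v hv n)
          (abs_nonneg (F ((shiftZ A)^[n] w) - h ((shiftZ A)^[n] w)))
        rw [mul_one] at h12
        exact h12
      have h12 : c / 2 * L ≤ |∑ n ∈ range L, h ((shiftZ A)^[n] w) * e v n| := by
        have h13 := abs_sub_abs_le_abs_sub (∑ n ∈ range L, F ((shiftZ A)^[n] w) * e v n)
          (∑ n ∈ range L, h ((shiftZ A)^[n] w) * e v n)
        linarith
      exact Set.mem_biUnion hv h12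
  have h10 : (Be m).real (ψ ⁻¹' Bd) ≤ (Be m).real (E1 ∪ ⋃ v ∈ U, E2 v) :=
    ENNReal.toReal_mono (measure_ne_top _ _) (measure_mono_ae h9)
  calc ν.real Bd = (Be m).real (ψ ⁻¹' Bd) := h8
    _ ≤ (Be m).real (E1 ∪ ⋃ v ∈ U, E2 v) := h10
    _ ≤ (Be m).real E1 + (Be m).real (⋃ v ∈ U, E2 v) := measureReal_union_le _ _
    _ ≤ η / 2 + η / 2 := add_le_add hm1 hm2
    _ = η := by ring

end Pool.Agent.Helper12.MB
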